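import Pool.Agent.Helper5.SR.St1

/-!
# SR, module LD: from the logarithmic coordinate to the disc
-/

set_option autoImplicit false

namespace Pool.Agent.Helper92.SR

open Complex Set Metric Filter Topology
open scoped Real
open Pool.Agent.Helper60.Rel (LH)
open Pool.Agent.Helper51.LT
open Helper5.SR

theorem LH_shift (ζ : ℂ) (hζ : ζ ∈ LH) (n : ℤ) : ζ + n * (2 * π * I) ∈ LH := by
  have : (ζ + n * (2 * π * I)).re = ζ.re := by
    simp [Complex.add_re, Complex.mul_re, Complex.mul_im]
  show (ζ + n * (2 * π * I)).re < 0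
  rw [this]; exact hζ

theorem P_shift (P : ℂ → ℂ) (hP : ∀ ζ ∈ LH, P (ζ + 2 * π * I) = P ζ + 2 * π * I) (ζ : ℂ)
    (hζ : ζ ∈ LH) (n : ℤ) : P (ζ + n * (2 * π * I)) = P ζ + n * (2 * π * I) := by
  have hup : ∀ k : ℕ, ∀ ζ ∈ LH, P (ζ + k * (2 * π * I)) = P ζ + k * (2 * π * I) := by
    intro k
    induction k with
    | zero => intro ζ _; simp
    | succ k ih =>
      intro ζ hζ
      have h1 := hP (ζ + k * (2 * π * I)) (by simpa using LH_shift ζ hζ (k : ℤ))
      rw [ih ζ hζ] at h1
      have e1 : ζ + ((k + 1 : ℕ) : ℂ) * (2 * π * I) = ζ + k * (2 * π * I) + 2 * π * I := by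
        push_cast; ring
      rw [e1, h1]
      push_cast; ring
  rcases Int.eq_nat_or_neg n with ⟨k, hk | hk⟩
  · subst hk; simpa using hup k ζ hζ
  · subst hk
    have hm := LH_shift ζ hζ (-(k : ℤ))
    have h1 := hup k _ hm
    have e1 : ζ + ((-(k : ℤ) : ℤ) : ℂ) * (2 * π * I) + k * (2 * π * I) = ζ := by
      push_cast; ring
    rw [e1] at h1
    rw [h1]
    push_cast; ring

theorem log_mem (w : ℂ) (hw : w ∈ ball (0 : ℂ) 1) (h0 : w ≠ 0) : Complex.log w ∈ LH := by
  show (Complex.log w).re < 0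
  rw [Complex.log_re]
  have h1 : ‖w‖ < 1 := by simpa using hw
  exact Real.log_neg (norm_pos_iff.mpr h0) h1

/-- LD. -/
theorem hLD : StLD := by
  intro P hd hinj hre hper
  have hexp : ∀ ζ ∈ LH, exp (P (Complex.log (exp ζ))) = exp (P ζ) := by
    intro ζ hζ
    obtain ⟨n, hn⟩ := Complex.exp_eq_exp_iff_exists_int.mp
      (Complex.exp_log (Complex.exp_ne_zero ζ))
    rw [hn, P_shift P hper ζ hζ n]
    exact Complex.exp_eq_exp_iff_exists_int.mpr ⟨n, rfl⟩
  set φ : ℂ → ℂ := fun w => if w = 0 then 0 else exp (P (Complex.log w)) with hφ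
  have hφ0 : φ 0 = 0 := by simp [hφ]
  have hφe : ∀ ζ ∈ LH, φ (exp ζ) = exp (P ζ) := by
    intro ζ hζ
    simp only [hφ, Complex.exp_ne_zero, if_false]
    exact hexp ζ hζ
  have hle : ∀ z ∈ ball (0 : ℂ) 1, ‖φ z‖ ≤ ‖z‖ := by
    intro z hz
    by_cases h0 : z = 0
    · rw [h0, hφ0]
    · simp only [hφ, h0, if_false]
      rw [Complex.norm_exp]
      calc Real.exp (P (Complex.log z)).re ≤ Real.exp (Complex.log z).re :=
            Real.exp_le_exp.mpr (hre _ (log_mem z hz h0))
        _ = ‖z‖ := by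
            rw [Complex.log_re, Real.exp_log (norm_pos_iff.mpr h0)]
  have hLHo : IsOpen LH := by
    have : LH = Complex.re ⁻¹' (Set.Iio 0) := rfl
    rw [this]
    exact isOpen_Iio.preimage Complex.continuous_re
  have hdiff0 : DifferentiableOn ℂ φ (ball (0 : ℂ) 1 \ {0}) := by
    intro w₀ hw₀
    have hw0 : w₀ ≠ 0 := hw₀.2
    have hL0 : Complex.log w₀ ∈ LH := log_mem w₀ hw₀.1 hw0
    have hg : DifferentiableAt ℂ (fun w : ℂ => Complex.log w₀ + Complex.log (w / w₀)) w₀ := by
      refine (DifferentiableAt.clog (differentiableAt_id.div_const w₀) ?_).const_add _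
      simp [hw0]
    have hval : Complex.log w₀ + Complex.log (w₀ / w₀) = Complex.log w₀ := by
      rw [div_self hw0, Complex.log_one, add_zero]
    have hPd : DifferentiableAt ℂ P (Complex.log w₀ + Complex.log (w₀ / w₀)) := by
      rw [hval]
      exact (hd _ hL0).differentiableAt (hLHo.mem_nhds hL0)
    have hcomp : DifferentiableAt ℂ
        (fun w : ℂ => exp (P (Complex.log w₀ + Complex.log (w / w₀)))) w₀ :=
      (DifferentiableAt.comp (g := P) w₀ hPd hg).cexp
    have hev : φ =ᶠ[𝓝 w₀] fun w : ℂ => exp (P (Complex.log w₀ + Complex.log (w / w₀))) := by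
      have h1 : ∀ᶠ w in 𝓝 w₀, Complex.log w₀ + Complex.log (w / w₀) ∈ LH := by
        refine hg.continuousAt.eventually_mem ?_
        show LH ∈ 𝓝 (Complex.log w₀ + Complex.log (w₀ / w₀))
        rw [hval]
        exact hLHo.mem_nhds hL0
      have h2 : ∀ᶠ w in 𝓝 w₀, w ≠ 0 := eventually_ne_nhds hw0
      filter_upwards [h1, h2] with w h1 h2
      have h3 : exp (Complex.log w₀ + Complex.log (w / w₀)) = w := by
        rw [Complex.exp_add, Complex.exp_log hw0, Complex.exp_log (div_ne_zero h2 hw0)]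
        field_simp
      rw [← hφe _ h1, h3]
    exact (hev.differentiableAt_iff.mpr hcomp).differentiableWithinAt
  have hcont : ContinuousAt φ 0 := by
    rw [Metric.continuousAt_iff]
    intro ε hε
    refine ⟨min ε 1, lt_min hε one_pos, ?_⟩
    intro x hx
    have hx1 : ‖x‖ < min ε 1 := by simpa [dist_eq_norm] using hx
    have := hle x (by simpa using lt_of_lt_of_le hx1 (min_le_right _ _))
    rw [hφ0, dist_zero_right]
    exact lt_of_le_of_lt this (lt_of_lt_of_le hx1 (min_le_left _ _))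
  have hdiff : DifferentiableOn ℂ φ (ball (0 : ℂ) 1) :=
    (Complex.differentiableOn_compl_singleton_and_continuousAt_iff
      (ball_mem_nhds (0 : ℂ) one_pos)).mp ⟨hdiff0, hcont⟩
  have hne : ∀ w : ℂ, w ≠ 0 → φ w ≠ 0 := by
    intro w h0
    simp only [hφ, h0, if_false]
    exact Complex.exp_ne_zero _
  refine ⟨φ, ⟨⟨hdiff, ?_⟩, ?_⟩, hφ0, hle, hφe⟩
  · intro w hw w' hw' heq
    by_cases h0 : w = 0
    · by_cases h0' : w' = 0
      · rw [h0, h0']
      · exfalso
        rw [h0, hφ0] at heq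
        exact hne w' h0' heq.symm
    · by_cases h0' : w' = 0
      · exfalso
        rw [h0', hφ0] at heq
        exact hne w h0 heq
      · simp only [hφ, h0, h0', if_false] at heq
        obtain ⟨n, hn⟩ := Complex.exp_eq_exp_iff_exists_int.mp heq
        have hL := log_mem w hw h0
        have hL' := log_mem w' hw' h0'
        rw [← P_shift P hper _ hL' n] at hn
        have h1 := hinj hL (LH_shift _ hL' n) hn
        have h2 : exp (Complex.log w) = exp (Complex.log w') :=
          Complex.exp_eq_exp_iff_exists_int.mpr ⟨n, h1⟩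
        rwa [Complex.exp_log h0, Complex.exp_log h0'] at h2
  · intro z hz
    have h1 : ‖z‖ < 1 := by simpa using hz
    exact (hle z hz).trans h1.le

end Pool.Agent.Helper92.SR
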